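import Mathlib
import Pool.Agent.N119.PS.Stm

set_option autoImplicit false

/-!
# Rays are quasi-geodesics (leaf RAY of project PS)
-/

namespace Pool.Agent.N720.PSC

open Pool.Agent.H472R3 Pool.Agent.H67R3.FSR Pool.Agent.H67R4.SR Pool.Agent.N119.PS Filter Topology

variable {N : ℕ}

theorem ray_G (A : FTree N) (x : A.T) (C : ℝ) (hC : IsBCC A x C) (ξ : Bd N) (k j : ℕ) :
    (lenFn A x).L (ray ξ k) - C ≤ G (lenFn A x) (ray ξ k) (ray ξ (k + j)) := by
  obtain ⟨t, ht⟩ := ray_pfx ξ k j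
  have hr : FreeGroup.IsReduced ((ray ξ k).toWord ++ t) := by
    rw [← ht]; exact FreeGroup.isReduced_toWord
  have hrt : FreeGroup.IsReduced t := (List.isChain_append.mp hr).2.1
  have e : (ray ξ k)⁻¹ * ray ξ (k + j) = FreeGroup.mk t := by
    rw [← FreeGroup.mk_toWord (x := ray ξ (k + j)), ht, ← FreeGroup.mul_mk, FreeGroup.mk_toWord,
      inv_mul_cancel_left]
  have e2 : (FreeGroup.mk t).toWord = t := by
    rw [FreeGroup.toWord_mk, hrt.reduce_eq]
  have h := hC.2 (ray ξ k) (FreeGroup.mk t) (by rw [e2]; exact hr)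
  rw [← e, mul_inv_cancel_left] at h
  unfold G
  linarith

theorem ray_large (A : FTree N) (hA : A.InCV) (x : A.T) (ξ : Bd N) (R : ℝ) :
    ∃ n0 : ℕ, ∀ n, n0 ≤ n → R < (lenFn A x).L (ray ξ n) := by
  have hf := proper A hA x R
  obtain ⟨B, hB⟩ := (hf.image fun g : FreeGroup (Fin N) => g.norm).bddAbove
  refine ⟨B + 1, fun n hn => ?_⟩
  by_contra hc
  push Not at hc
  have h1 : (ray ξ n).norm ≤ B := hB ⟨ray ξ n, hc, rfl⟩
  rw [ray_norm] at h1
  omega

theorem G_le_left (ℓ : LenFn N) (u v : FreeGroup (Fin N)) : G ℓ u v ≤ ℓ.L u := by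
  have h := tri ℓ u (u⁻¹ * v)
  rw [mul_inv_cancel_left] at h
  unfold G
  linarith

theorem stab (A : FTree N) (hA : A.InCV) (x : A.T) (C : ℝ) (hC : IsBCC A x C) (ξ : Bd N)
    (R : ℝ) : ∃ n0 : ℕ, ∀ k, n0 ≤ k → ∀ u : FreeGroup (Fin N), ∀ n, k ≤ n →
      G (lenFn A x) u (ray ξ k) ≤ R →
      G (lenFn A x) u (ray ξ n) = G (lenFn A x) u (ray ξ k) := by
  obtain ⟨n0, hn0⟩ := ray_large A hA x ξ (R + C)
  refine ⟨n0, fun k hk u n hn h => ?_⟩
  apply G_iso
  obtain ⟨j, rfl⟩ := Nat.exists_eq_add_of_le hn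
  have h1 := ray_G A x C hC ξ k j
  have h2 := hn0 k hk
  linarith

theorem G_diff (A : FTree N) (x : A.T) (C : ℝ) (hC : IsBCC A x C) (ξ ζ : Bd N)
    (h : ξ.1 1 ≠ ζ.1 1) (m n : ℕ) : G (lenFn A x) (ray ξ m) (ray ζ n) ≤ C := by
  have hC0 := hC.1
  rcases Nat.eq_zero_or_pos m with rfl | hm
  · have := G_le_left (lenFn A x) (ray ξ 0) (ray ζ n)
    have e : (lenFn A x).L (ray ξ 0) = 0 := (lenFn A x).one
    linarith
  rcases Nat.eq_zero_or_pos n with rfl | hn
  · have := G_le_left (lenFn A x) (ray ζ 0) (ray ξ m)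
    have e : (lenFn A x).L (ray ζ 0) = 0 := (lenFn A x).one
    rw [G_comm] at this
    linarith
  obtain ⟨s, hs⟩ : ∃ s, (ray ξ m).toWord = ξ.1 1 :: s := by
    obtain ⟨j, rfl⟩ := Nat.exists_eq_add_of_le hm
    obtain ⟨t, ht⟩ := ray_pfx ξ 1 j
    refine ⟨t, ?_⟩
    rw [ht]
    have := ray_word ξ 0
    simp only [ray, FreeGroup.toWord_one, List.nil_append, zero_add] at this
    simp only [ray]
    rw [this]
    rfl
  obtain ⟨t, ht⟩ : ∃ s, (ray ζ n).toWord = ζ.1 1 :: s := by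
    obtain ⟨j, rfl⟩ := Nat.exists_eq_add_of_le hn
    obtain ⟨t, ht⟩ := ray_pfx ζ 1 j
    refine ⟨t, ?_⟩
    rw [ht]
    have := ray_word ζ 0
    simp only [ray, FreeGroup.toWord_one, List.nil_append, zero_add] at this
    simp only [ray]
    rw [this]
    rfl
  have hr : FreeGroup.IsReduced ((ray ξ m)⁻¹.toWord ++ (ray ζ n).toWord) := by
    unfold FreeGroup.IsReduced
    rw [List.isChain_append]
    refine ⟨FreeGroup.isReduced_toWord, FreeGroup.isReduced_toWord, ?_⟩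
    intro y hy z hz
    rw [FreeGroup.toWord_inv, hs, FreeGroup.invRev_cons] at hy
    have hy' : y = inv' (ξ.1 1) := by
      rw [List.getLast?_append] at hy
      simp [FreeGroup.invRev] at hy
      rw [← hy]
      rfl
    rw [ht] at hz
    simp only [List.head?_cons, Option.mem_def, Option.some.injEq] at hz
    rw [reduced_iff, hy', inv'_inv', ← hz]
    exact h.symm
  have h1 := hC.2 _ _ hr
  rw [(lenFn A x).inv] at h1
  unfold G
  linarith

theorem t : S_RAY := by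
  intro N A hA x C hC
  refine ⟨fun ξ u => ?_, fun ξ ζ h => ⟨fun n => G_diff A x C hC ξ ζ h n n, ?_⟩⟩
  · obtain ⟨n0, hn0⟩ := stab A hA x C hC ξ ((lenFn A x).L u)
    exact ⟨n0, fun n hn => hn0 n0 le_rfl u n hn (G_le_left _ _ _)⟩
  · obtain ⟨n1, hn1⟩ := stab A hA x C hC ξ C
    obtain ⟨n2, hn2⟩ := stab A hA x C hC ζ C
    refine ⟨max n1 n2, fun n hn => ?_⟩
    have a1 := hn2 (max n1 n2) (le_max_right _ _) (ray ξ n) n hn
      (G_diff A x C hC ξ ζ h _ _)
    have a2 := hn1 (max n1 n2) (le_max_left _ _) (ray ζ (max n1 n2)) n hn (by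
      rw [G_comm]; exact G_diff A x C hC ξ ζ h _ _)
    rw [a1, G_comm, a2, G_comm]

end Pool.Agent.N720.PSC
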